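import Pool.Agent.Q99.HU.Stm2
import Pool.Agent.Q299.FAL.Bq

/-!
# Job HIM of project HU (helper99): far brackets at a lower level
-/


set_option autoImplicit false

namespace Pool.Agent.Q299.HU

open Finset
open Pool.Agent.W719.BS (D D_pos D_refl D_top)
open Pool.Agent.Q99.FAL (bq)
open Pool.Agent.Q299.FAL (bq_nat)

/-! ### calculus -/

/-- `log (sin (αu) / sin (βu))` -/
noncomputable def ps (α β u : ℝ) : ℝ := Real.log (Real.sin (α * u)) - Real.log (Real.sin (β * u))

/-- its derivative -/
noncomputable def ps' (α β u : ℝ) : ℝ :=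
  α * Real.cos (α * u) / Real.sin (α * u) - β * Real.cos (β * u) / Real.sin (β * u)

theorem sin_pos1 {α β u : ℝ} (ha : 0 < α) (hab : α ≤ β) (hu : 0 < u) (hb : β * u < Real.pi) :
    0 < Real.sin (α * u) ∧ 0 < Real.sin (β * u) := by
  have h1 : 0 < β := ha.trans_le hab
  have h2 : α * u ≤ β * u := mul_le_mul_of_nonneg_right hab hu.le
  exact ⟨Real.sin_pos_of_pos_of_lt_pi (by positivity) (by linarith),
    Real.sin_pos_of_pos_of_lt_pi (by positivity) hb⟩

theorem deriv1 {α β u : ℝ} (ha : 0 < α) (hab : α ≤ β) (hu : 0 < u) (hb : β * u < Real.pi) :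
    HasDerivAt (ps α β) (ps' α β u) u := by
  obtain ⟨h1, h2⟩ := sin_pos1 ha hab hu hb
  have d1 : ∀ c : ℝ, HasDerivAt (fun u : ℝ => Real.sin (c * u)) (Real.cos (c * u) * c) u := by
    intro c
    have := ((hasDerivAt_id u).const_mul c).sin
    simpa using this
  have h3 := ((d1 α).log h1.ne').sub ((d1 β).log h2.ne')
  unfold ps ps'
  convert! h3 using 1
  ring

theorem deriv2 {α β u : ℝ} (ha : 0 < α) (hab : α ≤ β) (hu : 0 < u) (hb : β * u < Real.pi) :
    HasDerivAt (ps' α β) (β ^ 2 / Real.sin (β * u) ^ 2 - α ^ 2 / Real.sin (α * u) ^ 2) u := by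
  obtain ⟨h1, h2⟩ := sin_pos1 ha hab hu hb
  have d1 : ∀ c : ℝ, HasDerivAt (fun u : ℝ => Real.sin (c * u)) (Real.cos (c * u) * c) u := by
    intro c
    have := ((hasDerivAt_id u).const_mul c).sin
    simpa using this
  have d2 : ∀ c : ℝ, HasDerivAt (fun u : ℝ => c * Real.cos (c * u))
      (c * (-Real.sin (c * u) * c)) u := by
    intro c
    have := (((hasDerivAt_id u).const_mul c).cos).const_mul c
    simpa using this
  have h3 := ((d2 α).div (d1 α) h1.ne').sub ((d2 β).div (d1 β) h2.ne')
  unfold ps'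
  convert! h3 using 1
  have e1 := Real.sin_sq_add_cos_sq (α * u)
  have e2 := Real.sin_sq_add_cos_sq (β * u)
  have e3 : ∀ c : ℝ, Real.sin (c * u) ^ 2 + Real.cos (c * u) ^ 2 = 1 →
      Real.sin (c * u) ≠ 0 → (c * (-Real.sin (c * u) * c) * Real.sin (c * u) -
        c * Real.cos (c * u) * (Real.cos (c * u) * c)) / Real.sin (c * u) ^ 2 =
        - (c ^ 2 / Real.sin (c * u) ^ 2) := by
    intro c h4 h5
    rw [← neg_div]
    congr 1
    linear_combination (- c ^ 2) * h4
  rw [e3 α e1 h1.ne', e3 β e2 h2.ne']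
  ring

/-- monotone comparison on an interval -/
theorem nonneg_of_deriv {F F' : ℝ → ℝ} {b : ℝ} (h0 : 0 ≤ F 0)
    (hF : ∀ x, HasDerivAt F (F' x) x) (hn : ∀ x, 0 < x → x < b → 0 ≤ F' x) {x : ℝ} (hx : 0 ≤ x)
    (hxb : x ≤ b) : 0 ≤ F x := by
  have h1 : MonotoneOn F (Set.Icc 0 b) := by
    refine monotoneOn_of_deriv_nonneg (convex_Icc 0 b)
      (fun y _ => (hF y).continuousAt.continuousWithinAt)
      (fun y _ => (hF y).differentiableAt.differentiableWithinAt) fun y hy => ?_
    rw [interior_Icc] at hy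
    rw [(hF y).deriv]
    exact hn y hy.1 hy.2
  exact h0.trans (h1 ⟨le_rfl, hx.trans hxb⟩ ⟨hx, hxb⟩ hx)

theorem ps'_nonneg {α β u : ℝ} (ha : 0 < α) (hab : α ≤ β) (hu : 0 < u) (hb : β * u < Real.pi) :
    0 ≤ ps' α β u := by
  obtain ⟨h1, h2⟩ := sin_pos1 ha hab hu hb
  have hβ : 0 < β := ha.trans_le hab
  have key : 0 ≤ α * Real.cos (α * u) * Real.sin (β * u) -
      β * Real.cos (β * u) * Real.sin (α * u) := by
    refine nonneg_of_deriv (F := fun u => α * Real.cos (α * u) * Real.sin (β * u) -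
      β * Real.cos (β * u) * Real.sin (α * u))
      (F' := fun u => (β ^ 2 - α ^ 2) * (Real.sin (α * u) * Real.sin (β * u)))
      (b := u) (by simp) (fun x => ?_) (fun x hx hxu => ?_) hu.le le_rfl
    · have d1 : ∀ c : ℝ, HasDerivAt (fun u : ℝ => Real.sin (c * u)) (Real.cos (c * x) * c) x := by
        intro c
        have := ((hasDerivAt_id x).const_mul c).sin
        simpa using this
      have d2 : ∀ c : ℝ, HasDerivAt (fun u : ℝ => c * Real.cos (c * u))
          (c * (-Real.sin (c * x) * c)) x := by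
        intro c
        have := (((hasDerivAt_id x).const_mul c).cos).const_mul c
        simpa using this
      have h3 := ((d2 α).mul (d1 β)).sub ((d2 β).mul (d1 α))
      convert! h3 using 1
      ring
    · obtain ⟨h3, h4⟩ := sin_pos1 ha hab hx (u := x)
        (lt_of_le_of_lt (mul_le_mul_of_nonneg_left hxu.le hβ.le) hb)
      have h5 : 0 ≤ β ^ 2 - α ^ 2 := by nlinarith
      positivity
  unfold ps'
  rw [div_sub_div _ _ h1.ne' h2.ne']
  refine div_nonneg ?_ (by positivity)
  linarith

theorem snd_nonneg {α β u : ℝ} (ha : 0 < α) (hab : α ≤ β) (hu : 0 < u) (hb : β * u < Real.pi) :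
    0 ≤ β ^ 2 / Real.sin (β * u) ^ 2 - α ^ 2 / Real.sin (α * u) ^ 2 := by
  obtain ⟨h1, h2⟩ := sin_pos1 ha hab hu hb
  have hβ : 0 < β := ha.trans_le hab
  have key : 0 ≤ β * Real.sin (α * u) - α * Real.sin (β * u) := by
    refine nonneg_of_deriv (F := fun u => β * Real.sin (α * u) - α * Real.sin (β * u))
      (F' := fun u => α * β * (Real.cos (α * u) - Real.cos (β * u)))
      (b := u) (by simp) (fun x => ?_) (fun x hx hxu => ?_) hu.le le_rfl
    · have d1 : ∀ c : ℝ, HasDerivAt (fun u : ℝ => Real.sin (c * u)) (Real.cos (c * x) * c) x := by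
        intro c
        have := ((hasDerivAt_id x).const_mul c).sin
        simpa using this
      have h3 := ((d1 α).const_mul β).sub ((d1 β).const_mul α)
      convert! h3 using 1
      ring
    · have h5 : β * x < Real.pi := lt_of_le_of_lt (mul_le_mul_of_nonneg_left hxu.le hβ.le) hb
      have h6 : Real.cos (β * x) ≤ Real.cos (α * x) := by
        refine Real.cos_le_cos_of_nonneg_of_le_pi (by positivity) h5.le ?_
        exact mul_le_mul_of_nonneg_right hab hx.le
      exact mul_nonneg (by positivity) (by linarith)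
  rw [sub_nonneg, div_le_div_iff₀ (by positivity) (by positivity)]
  have h3 : 0 ≤ α * Real.sin (β * u) := by positivity
  nlinarith

theorem ps_mono {α β : ℝ} (ha : 0 < α) (hab : α ≤ β) :
    MonotoneOn (ps α β) (Set.Ioo 0 (Real.pi / β)) := by
  have hβ : 0 < β := ha.trans_le hab
  have hb : ∀ x ∈ Set.Ioo 0 (Real.pi / β), β * x < Real.pi := fun x hx => by
    have := (lt_div_iff₀ hβ).1 hx.2
    linarith
  refine monotoneOn_of_deriv_nonneg (convex_Ioo _ _)
    (fun x hx => (deriv1 ha hab hx.1 (hb x hx)).continuousAt.continuousWithinAt)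
    (fun x hx => ?_) fun x hx => ?_
  · rw [interior_Ioo] at hx
    exact (deriv1 ha hab hx.1 (hb x hx)).differentiableAt.differentiableWithinAt
  · rw [interior_Ioo] at hx
    rw [(deriv1 ha hab hx.1 (hb x hx)).deriv]
    exact ps'_nonneg ha hab hx.1 (hb x hx)

theorem ps_conv {α β : ℝ} (ha : 0 < α) (hab : α ≤ β) :
    ConvexOn ℝ (Set.Ioo 0 (Real.pi / β)) (ps α β) := by
  have hβ : 0 < β := ha.trans_le hab
  have hb : ∀ x ∈ Set.Ioo 0 (Real.pi / β), β * x < Real.pi := fun x hx => by
    have := (lt_div_iff₀ hβ).1 hx.2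
    linarith
  refine MonotoneOn.convexOn_of_deriv (convex_Ioo _ _)
    (fun x hx => (deriv1 ha hab hx.1 (hb x hx)).continuousAt.continuousWithinAt)
    (fun x hx => ?_) ?_
  · rw [interior_Ioo] at hx
    exact (deriv1 ha hab hx.1 (hb x hx)).differentiableAt.differentiableWithinAt
  · rw [interior_Ioo]
    have h1 : MonotoneOn (ps' α β) (Set.Ioo 0 (Real.pi / β)) := by
      refine monotoneOn_of_deriv_nonneg (convex_Ioo _ _)
        (fun x hx => (deriv2 ha hab hx.1 (hb x hx)).continuousAt.continuousWithinAt)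
        (fun x hx => ?_) fun x hx => ?_
      · rw [interior_Ioo] at hx
        exact (deriv2 ha hab hx.1 (hb x hx)).differentiableAt.differentiableWithinAt
      · rw [interior_Ioo] at hx
        rw [(deriv2 ha hab hx.1 (hb x hx)).deriv]
        exact snd_nonneg ha hab hx.1 (hb x hx)
    intro x hx y hy hxy
    rw [(deriv1 ha hab hx.1 (hb x hx)).deriv, (deriv1 ha hab hy.1 (hb y hy)).deriv]
    exact h1 hx hy hxy

theorem four {α β : ℝ} (ha : 0 < α) (hab : α ≤ β) {i a b : ℝ} (hi : 0 < i) (h1 : 0 ≤ a)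
    (h2 : 0 ≤ b) (h3 : a + b + i < Real.pi / β) :
    ps α β (a + i) + ps α β (b + i) ≤ ps α β i + ps α β (a + b + i) := by
  rcases h1.eq_or_lt with rfl | h1
  · rw [zero_add, zero_add]
  · have h4 := ps_conv ha hab
    have h5 : 0 < a + b := by linarith
    have m1 : i ∈ Set.Ioo 0 (Real.pi / β) := ⟨hi, by linarith⟩
    have m2 : a + b + i ∈ Set.Ioo 0 (Real.pi / β) := ⟨by linarith, h3⟩
    have h6 := h4.2 m1 m2 (show 0 ≤ b / (a + b) by positivity)
      (show 0 ≤ a / (a + b) by positivity) (by field_simp; ring)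
    have h7 := h4.2 m1 m2 (show 0 ≤ a / (a + b) by positivity)
      (show 0 ≤ b / (a + b) by positivity) (by field_simp)
    simp only [smul_eq_mul] at h6 h7
    rw [show b / (a + b) * i + a / (a + b) * (a + b + i) = a + i by field_simp; ring] at h6
    rw [show a / (a + b) * i + b / (a + b) * (a + b + i) = b + i by field_simp; ring] at h7
    have h8 : b / (a + b) + a / (a + b) = 1 := by field_simp; ring
    have h9 := add_le_add h6 h7
    refine h9.trans (le_of_eq ?_)
    linear_combination (ps α β i + ps α β (a + b + i)) * h8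

/-! ### products -/

section disc

variable {N N' : ℕ}

/-- `log (s_N(i) / s_N'(i))` -/
noncomputable def pd (N N' i : ℕ) : ℝ := ps (Real.pi / N) (Real.pi / N') i

/-- the logarithm of the ratio of the products -/
noncomputable def Rd (N N' k : ℕ) : ℝ := ∑ i ∈ range k, pd N N' (i + 1)

theorem pin {N N' : ℕ} (h : 0 < N') (hN : N' ≤ N) : 0 < Real.pi / (N : ℝ) ∧
    Real.pi / (N : ℝ) ≤ Real.pi / N' ∧ Real.pi / (Real.pi / (N' : ℝ)) = N' := by
  have h1 : (0 : ℝ) < N' := Nat.cast_pos.2 h
  have h2 : (N' : ℝ) ≤ N := Nat.cast_le.2 hN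
  have h3 : (0 : ℝ) < N := h1.trans_le h2
  have h4 := Real.pi_pos
  refine ⟨by positivity, ?_, ?_⟩
  · exact div_le_div_of_nonneg_left h4.le h1 h2
  · field_simp

theorem pd_mono (hN : N' ≤ N) {i j : ℕ} (hi : 0 < i) (hij : i ≤ j) (hj : j < N') :
    pd N N' i ≤ pd N N' j := by
  obtain ⟨h1, h2, h3⟩ := pin (N := N) (show 0 < N' by omega) hN
  refine ps_mono h1 h2 ⟨by exact_mod_cast hi, ?_⟩ ⟨by exact_mod_cast (by omega : 0 < j), ?_⟩
    (by exact_mod_cast hij)
  · rw [h3]
    exact_mod_cast (by omega : i < N')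
  · rw [h3]
    exact_mod_cast hj

theorem pd_four (hN : N' ≤ N) {i a b : ℕ} (hi : 0 < i) (h : a + b + i < N') :
    pd N N' (a + i) + pd N N' (b + i) ≤ pd N N' i + pd N N' (a + b + i) := by
  obtain ⟨h1, h2, h3⟩ := pin (N := N) (show 0 < N' by omega) hN
  have h4 := four h1 h2 (i := i) (a := a) (b := b) (by exact_mod_cast hi) (Nat.cast_nonneg _)
    (Nat.cast_nonneg _) (by rw [h3]; exact_mod_cast h)
  unfold pd
  push_cast
  exact h4

/-- `log Q(x, y)` -/
noncomputable def Qd (N N' x y : ℕ) : ℝ := Rd N N' (x + y) - Rd N N' x - Rd N N' y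

theorem Qd_eq (x y : ℕ) : Qd N N' x y = ∑ i ∈ range x, (pd N N' (y + (i + 1)) - pd N N' (i + 1)) := by
  unfold Qd Rd
  rw [add_comm x y, sum_range_add, sum_sub_distrib]
  simp only [add_assoc]
  ring

theorem Qd_symm (x y : ℕ) : Qd N N' x y = Qd N N' y x := by
  unfold Qd
  rw [add_comm x y]
  ring

theorem Qd_mono (hN : N' ≤ N) {x y z : ℕ} (hyz : y ≤ z) (h : x + z < N') :
    Qd N N' x y ≤ Qd N N' x z := by
  rw [Qd_eq, Qd_eq]
  refine sum_le_sum fun i hi => ?_
  rw [mem_range] at hi
  have := pd_mono hN (i := y + (i + 1)) (j := z + (i + 1)) (by omega) (by omega) (by omega)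
  linarith

theorem Qd_add (hN : N' ≤ N) {x a b : ℕ} (h : x + (a + b) < N') :
    Qd N N' x a + Qd N N' x b ≤ Qd N N' x (a + b) := by
  rw [Qd_eq, Qd_eq, Qd_eq, ← sum_add_distrib]
  refine sum_le_sum fun i hi => ?_
  rw [mem_range] at hi
  have := pd_four hN (i := i + 1) (a := a) (b := b) (by omega) (by omega)
  linarith

theorem D_ratio (hN : N' ≤ N) {k : ℕ} (hk : k < N') :
    D N k = Real.exp (Rd N N' k) * D N' k := by
  unfold Rd D
  rw [Real.exp_sum, ← prod_mul_distrib]
  refine prod_congr rfl fun i hi => ?_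
  rw [mem_range] at hi
  obtain ⟨h1, h2, h3⟩ := pin (N := N) (show 0 < N' by omega) hN
  have hN'pos : (0 : ℝ) < N' := by exact_mod_cast (by omega : 0 < N')
  have h5 : Real.pi / (N' : ℝ) * ((i + 1 : ℕ) : ℝ) < Real.pi := by
    rw [div_mul_eq_mul_div, div_lt_iff₀ hN'pos]
    exact mul_lt_mul_of_pos_left (by exact_mod_cast (by omega : i + 1 < N')) Real.pi_pos
  obtain ⟨h6, h7⟩ := sin_pos1 h1 h2 (u := ((i + 1 : ℕ) : ℝ)) (by positivity) h5
  unfold pd ps
  rw [Real.exp_sub, Real.exp_log h6, Real.exp_log h7]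
  have e1 : Real.pi * ((i : ℝ) + 1) / N = Real.pi / N * ((i + 1 : ℕ) : ℝ) := by
    push_cast
    ring
  have e2 : Real.pi * ((i : ℝ) + 1) / N' = Real.pi / N' * ((i + 1 : ℕ) : ℝ) := by
    push_cast
    ring
  rw [e1, e2]
  generalize Real.sin (Real.pi / (N : ℝ) * ((i + 1 : ℕ) : ℝ)) = A at h6 ⊢
  generalize Real.sin (Real.pi / (N' : ℝ) * ((i + 1 : ℕ) : ℝ)) = B at h7 ⊢
  have := h7.ne'
  field_simp

/-- the bracket as a function of two of the three numbers -/
noncomputable def BB (N x y : ℕ) : ℝ := D N (x + y) / (D N x * D N y)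

theorem bq_BB {n x m : ℕ} (h : n + m + 1 = N) (hx : x ≤ n) : bq N n x = BB N x m := by
  rw [bq_nat hx (by omega)]
  unfold BB
  have h1 := D_refl N n m h
  have h2 := D_refl N (n - x) (x + m) (by omega)
  have d1 := D_pos N m (by omega)
  have d2 := D_pos N n (by omega)
  have d3 := D_pos N (n - x) (by omega)
  have d4 := D_pos N (x + m) (by omega)
  have d5 := D_pos N x (by omega)
  rw [div_eq_div_iff (by positivity) (by positivity)]
  have h3 : D N n * D N m = D N (n - x) * D N (x + m) := by rw [h1, h2]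
  linear_combination D N x * h3

theorem bq_BB' {n x : ℕ} (h : n < N) (hx : x ≤ n) : bq N n x = BB N x (n - x) := by
  rw [bq_nat hx h]
  unfold BB
  rw [Nat.add_sub_cancel' hx]

theorem BB_ratio (hN : N' ≤ N) {x y : ℕ} (h : x + y < N') :
    BB N x y = Real.exp (Qd N N' x y) * BB N' x y := by
  unfold BB Qd
  rw [D_ratio hN h, D_ratio hN (show x < N' by omega), D_ratio hN (show y < N' by omega),
    Real.exp_sub, Real.exp_sub]
  have d1 := (D_pos N' x (by omega)).ne'
  have d2 := (D_pos N' y (by omega)).ne'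
  have e1 := (Real.exp_pos (Rd N N' x)).ne'
  have e2 := (Real.exp_pos (Rd N N' y)).ne'
  field_simp

theorem BB_pos {x y : ℕ} (h : x + y < N) : 0 < BB N x y := by
  unfold BB
  have d1 := D_pos N x (by omega)
  have d2 := D_pos N y (by omega)
  have d3 := D_pos N (x + y) (by omega)
  positivity

end disc

theorem task_HIM : Pool.Agent.Q99.HU.S_HIM := by
  intro M j g C y e m n' N'
  have hN : N' ≤ N' + M := Nat.le_add_right _ _
  have hm : m = C + y + e := rfl
  have hn' : n' = m + j + g := rfl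
  have hN' : N' = n' + m + 1 := rfl
  clear_value m n' N'
  set N := N' + M with hNd
  have b1 : ∀ x, x + m < N' → bq N (n' + M : ℕ) x = BB N x m := fun x hx =>
    bq_BB (by omega) (by omega)
  have b2 : ∀ x, x + m < N' → bq N' n' x = BB N' x m := fun x hx =>
    bq_BB (by omega) (by omega)
  have b3 : ∀ x, x ≤ m → bq N m x = BB N x (m - x) := fun x hx => bq_BB' (by omega) hx
  have b4 : ∀ x, x ≤ m → bq N' m x = BB N' x (m - x) := fun x hx => bq_BB' (by omega) hx
  have b5 : bq N (n' + M : ℕ) M = Real.exp (Qd N N' m n') := by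
    rw [bq_BB' (by omega) (by omega), Nat.add_sub_cancel]
    have h1 : BB N M n' = BB N m n' := by
      unfold BB
      have h2 := D_refl N (M + n') m (by omega)
      have h3 := D_refl N M (m + n') (by omega)
      have d1 := D_pos N m (by omega)
      have d2 := D_pos N M (by omega)
      have d3 := D_pos N n' (by omega)
      rw [div_eq_div_iff (by positivity) (by positivity)]
      have h4 : D N (M + n') * D N m = D N M * D N (m + n') := by rw [h2, h3]
      linear_combination D N n' * h4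
    rw [h1, BB_ratio hN (by omega)]
    have h5 : BB N' m n' = 1 := by
      unfold BB
      have h6 : m + n' = N' - 1 := by omega
      rw [h6, D_top N' (by omega), D_refl N' m n' (by omega), div_self]
      exact_mod_cast (by omega : N' ≠ 0)
    rw [h5, mul_one]
  rw [b1 C (by omega), b1 j (by omega), b1 g (by omega), b3 y (by omega), b3 e (by omega), b5,
    b2 C (by omega), b2 j (by omega), b2 g (by omega), b4 y (by omega), b4 e (by omega),
    BB_ratio hN (show C + m < N' by omega), BB_ratio hN (show j + m < N' by omega),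
    BB_ratio hN (show g + m < N' by omega), BB_ratio hN (show y + (m - y) < N' by omega),
    BB_ratio hN (show e + (m - e) < N' by omega)]
  have q1 : Qd N N' y (m - y) ≤ Qd N N' m y := by
    rw [Qd_symm m y]
    exact Qd_mono hN (by omega) (by omega)
  have q2 : Qd N N' e (m - e) ≤ Qd N N' m e := by
    rw [Qd_symm m e]
    exact Qd_mono hN (by omega) (by omega)
  have q3 := Qd_add hN (x := m) (a := C) (b := j) (by omega)
  have q4 := Qd_add hN (x := m) (a := C + j) (b := g) (by omega)
  have q5 := Qd_add hN (x := m) (a := C + j + g) (b := y) (by omega)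
  have q6 := Qd_add hN (x := m) (a := C + j + g + y) (b := e) (by omega)
  have q7 : C + j + g + y + e = n' := by omega
  rw [q7] at q6
  have q8 : Qd N N' C m + Qd N N' j m + Qd N N' y (m - y) + Qd N N' g m + Qd N N' e (m - e) ≤
      Qd N N' m n' := by
    rw [Qd_symm C m, Qd_symm j m, Qd_symm g m]
    linarith
  have q9 := Real.exp_le_exp.2 q8
  rw [Real.exp_add, Real.exp_add, Real.exp_add, Real.exp_add] at q9
  have p1 := BB_pos (N := N') (show C + m < N' by omega)
  have p2 := BB_pos (N := N') (show j + m < N' by omega)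
  have p3 := BB_pos (N := N') (show g + m < N' by omega)
  have p4 := BB_pos (N := N') (show y + (m - y) < N' by omega)
  have p5 := BB_pos (N := N') (show e + (m - e) < N' by omega)
  have q10 := mul_le_mul_of_nonneg_right q9
    (show 0 ≤ BB N' C m * (BB N' j m * BB N' y (m - y)) * (BB N' g m * BB N' e (m - e)) by positivity)
  refine le_trans (le_of_eq ?_) q10
  ring

end Pool.Agent.Q299.HU
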