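import Pool.Agent.Q99.HU.Stm2
import Pool.Agent.Q299.HU.GGP
import Pool.Agent.Q251.HT.SGD
import Pool.Agent.Q297.KN.F2
import Pool.Agent.Q297.KN.B1F
import Pool.Agent.Q297.KN.PF
import Pool.Agent.Q210.KN.WR
import Pool.Agent.Q210.KN.K1
import Pool.Agent.Q210.KN.K3
import Pool.Agent.Q208.KN.CU
import Pool.Agent.Q208.KN.HI
import Pool.Agent.Q261.KN.K2
import Pool.Agent.Q261.KN.MP
import Pool.Agent.Q261.KN.PJ
import Pool.Agent.Q261.FAL.EU
import Pool.Agent.Q239.KN.TO

/-!
# Job JGP of project HU (helper99): the Kashaev invariant with the explicit phase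
-/

set_option autoImplicit false

namespace Pool.Agent.Q299.HU

open Matrix Finset
open Pool.Agent.W715.VC (rt)
open Pool.Agent.W709.QAT (Piece run)
open Pool.Agent.Q191.TW (cs cs_add cs_zero cs_period)
open Pool.Agent.Q191.LB (sg)
open Pool.Agent.Q99.FW (Kg K2)
open Pool.Agent.Q99.FAL
open Pool.Agent.Q99.KN
open Pool.Agent.Q99.HT Pool.Agent.Q99.HU
open Pool.Agent.Q99.FP2 (kcup kcap Phs phs_kcup phs_kcap phs_ep Fh)
open Pool.Agent.Q251.HT (toG len_toG vag_toG ok_toG flat_toG unr)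

theorem t_F2 : F2 := Pool.Agent.Q297.KN.f2 Pool.Agent.Q261.FAL.task_EU Pool.Agent.Q297.KN.pf
  Pool.Agent.Q210.KN.task_WR Pool.Agent.Q208.KN.task_CU
  Pool.Agent.Q210.KN.task_K1 Pool.Agent.Q297.KN.b1 Pool.Agent.Q261.KN.task_K2
  Pool.Agent.Q208.KN.task_HI Pool.Agent.Q261.KN.task_MP Pool.Agent.Q261.KN.task_PJ
  Pool.Agent.Q210.KN.task_K3

theorem tg_K (N : ℕ) (K : ℂ) (T : Ty) (p n : ℕ) : tg N K T p n = K * tg N 1 T p n := by
  cases T <;> simp only [tg] <;> ring

theorem phs_tg (T : Ty) (p n : ℕ) (h : p + wd T ≤ n) :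
    Phs (fun N => tg N 1 T p n) (Fh (up T n) - Fh n) := by
  have hKg : Phs (fun _ => (1 : ℂ)) 0 := Pool.Agent.Q99.FP2.Phs.one
  cases T
  · have : up .V n = n := rfl
    rw [this, sub_self]
    exact hKg
  · have e : up .H n = n := rfl
    rw [e, sub_self]
    have := (((phs_kcup n (p + 1 + 1)).mul hKg).mul (phs_kcap (n - p) p)).mul (phs_ep (-1))
    refine this.shift (-1) ?_
    push_cast
    ring
  · have e : up .YL n = n + 2 := rfl
    have h' : p + 1 ≤ n := h
    have h1 : ((n - p - 1 : ℕ) : ℝ) = n - p - 1 := by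
      rw [Nat.cast_sub (by omega), Nat.cast_sub (by omega)]
      push_cast
      ring
    have := ((phs_kcup n (p + 1)).mul hKg).mul ((phs_ep 1).pow (n - p - 1))
    refine this.shift 0 ?_
    rw [e, h1]
    unfold Fh
    push_cast
    ring
  · have e : up .YR n = n + 2 := rfl
    have h' : p + 1 ≤ n := h
    have h1 : ((n - p - 1 : ℕ) : ℝ) = n - p - 1 := by
      rw [Nat.cast_sub (by omega), Nat.cast_sub (by omega)]
      push_cast
      ring
    have := ((phs_kcup n p).mul hKg).mul ((phs_ep 1).pow (n - p - 1 + 1))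
    refine this.shift 0 ?_
    rw [e]
    push_cast
    rw [h1]
    unfold Fh
    push_cast
    ring
  · have e : up .LL n = n - 2 := rfl
    have h' : p + 3 ≤ n := h
    have h1 : ((n - p - 3 : ℕ) : ℝ) = n - p - 3 := by
      rw [Nat.cast_sub (by omega), Nat.cast_sub (by omega)]
      push_cast
      ring
    have h2 : ((n - 2 : ℕ) : ℝ) = n - 2 := by
      rw [Nat.cast_sub (by omega)]
      push_cast
      ring
    have := (hKg.mul (phs_kcap (n - p - 3) (p + 1))).mul
      ((phs_ep (-1)).mul ((phs_ep (-1)).pow (n - p - 3)))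
    refine this.shift 0 ?_
    rw [e, h1]
    unfold Fh
    rw [h2]
    push_cast
    ring
  · have e : up .LR n = n - 2 := rfl
    have h' : p + 3 ≤ n := h
    have h1 : ((n - p - 3 : ℕ) : ℝ) = n - p - 3 := by
      rw [Nat.cast_sub (by omega), Nat.cast_sub (by omega)]
      push_cast
      ring
    have h2 : ((n - 2 : ℕ) : ℝ) = n - 2 := by
      rw [Nat.cast_sub (by omega)]
      push_cast
      ring
    have := (hKg.mul (phs_kcap (n - p - 2) p)).mul
      ((phs_ep (-1)).mul ((phs_ep (-1)).pow (n - p - 3 + 1)))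
    refine this.shift 0 ?_
    rw [e]
    unfold Fh
    rw [h2]
    push_cast
    rw [h1]
    ring

/-- the product of the constants of the cups and caps -/
noncomputable def gl (N : ℕ) : List Pc → ℕ → ℂ
  | [], _ => 1
  | P :: D, n => tg N 1 P.ty P.p n * gl N D (up P.ty n)

theorem phs_gl : ∀ (D : List Pc) (n : ℕ), Val D n → Phs (fun N => gl N D n) (-Fh n)
  | [], n, h => by
    have h1 : n = 1 := h
    subst h1
    have e : -Fh 1 = 0 := by
      unfold Fh
      norm_num
    rw [e]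
    exact Pool.Agent.Q99.FP2.Phs.one
  | P :: D, n, h => by
    have := (phs_tg P.ty P.p n h.1).mul (phs_gl D _ h.2)
    have e : -Fh n = (Fh (up P.ty n) - Fh n) + -Fh (up P.ty n) := by ring
    rw [e]
    exact this

theorem thg_toG (N : ℕ) : ∀ (D : List Pc) (f : Fin D.length → Bool × ℕ) (n : ℕ),
    ThG N (toG N D f) n = gl N D n * ∏ k, (tw N (f k).1 (f k).2).K
  | [], f, n => by
    have : ∏ k : Fin ([] : List Pc).length, (tw N (f k).1 (f k).2).K = 1 := by
      rfl
    rw [this, mul_one]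
    rfl
  | P :: D, f, n => by
    have h1 := thg_toG N D (fun k => f k.succ) (up P.ty n)
    have h2 : ∏ k : Fin (P :: D).length, (tw N (f k).1 (f k).2).K =
        (tw N (f 0).1 (f 0).2).K * ∏ k : Fin D.length, (tw N (f k.succ).1 (f k.succ).2).K :=
      Fin.prod_univ_succ (n := D.length) fun k => (tw N (f k).1 (f k).2).K
    have h3 : ThG N (toG N (P :: D) f) n = tg N (tw N (f 0).1 (f 0).2).K P.ty P.p n *
        ThG N (toG N D (fun k => f k.succ)) (up P.ty n) := rfl
    have h4 : gl N (P :: D) n = tg N 1 P.ty P.p n * gl N D (up P.ty n) := rfl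
    rw [h3, h1, h2, h4, tg_K]
    ring

theorem task_JGP : S_JGP := by
  intro D hV
  obtain ⟨β, γ, hph⟩ := phs_gl D 1 hV
  refine ⟨β, γ, fun N h f => ?_⟩
  have hok : ∀ (σ : Bool) (m : ℕ), (tw N σ m).Ok := Pool.Agent.Q239.KN.task_TO t_F2 N h
  have hr := jg_ex N h (toG N D f) (ok_toG N hok D f) (vag_toG N D f 1 hV)
  have hph' : gl N D 1 = cs N ((-Fh 1) * (N : ℝ) ^ 2 + β * N + γ) := hph N h
  rw [flat_toG, len_toG, unr, thg_toG, hph'] at hr
  have hpw : ((N : ℂ) / (Real.pi : ℂ)) ^ D.length =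
      (N : ℂ) ^ D.length * (1 / (Real.pi : ℂ)) ^ D.length := by
    rw [← mul_pow, mul_one_div]
  have hK : ∏ k : Fin D.length, (tw N (f k).1 (f k).2).K =
      ((-1 : ℂ) ^ (N - 1)) ^ D.length * ∏ k, Kg N (sg (f k).1) ^ (f k).2 := by
    have h1 : ∀ k : Fin D.length, (tw N (f k).1 (f k).2).K =
        (-1 : ℂ) ^ (N - 1) * Kg N (sg (f k).1) ^ (f k).2 := fun k => by
      show Kg N (sg (f k).1) ^ (f k).2 * (-1 : ℂ) ^ (N - 1) = _
      ring
    rw [Finset.prod_congr rfl fun k _ => h1 k, Finset.prod_mul_distrib, Finset.prod_const,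
      Finset.card_univ, Fintype.card_fin]
  have hα : (-Fh 1) * (N : ℝ) ^ 2 + β * N + γ = β * N + γ := by
    unfold Fh
    norm_num
  rw [hK, hα] at hr
  rw [hr, ZD, hpw]
  ring

end Pool.Agent.Q299.HU
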