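import Pool.Agent.Q99.HU.Stm2
import Pool.Agent.Q299.FAL.Bq

/-!
# Job NOP of project HU (helper99): angles which are not obtuse
-/

set_option autoImplicit false

namespace Pool.Agent.Q299.HU

open Finset Filter Topology
open Pool.Agent.W719.BS (D LL LL_half D_pos D_refl)
open Pool.Agent.Q99.FAL (bq hh S_T1)
open Pool.Agent.Q99.HT Pool.Agent.Q99.HU
open Pool.Agent.Q299.FAL (bq_nat)

/-- `hh c + c log tan (πc) + (1/2) log cos (πc)` -/
noncomputable def gN (c : ℝ) : ℝ := hh c + c * Real.log (Real.tan (Real.pi * c)) +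
  1 / 2 * Real.log (Real.cos (Real.pi * c))

theorem gN_zero : gN 0 = 0 := by
  unfold gN hh
  have h1 : LL 0 = 0 := by simp [LL]
  rw [sub_zero, LL_half, h1]
  simp

theorem gN_pos (hT : S_T1) {c : ℝ} (h0 : 0 < c) (h1 : c < 1 / 2) : 0 < gN c := by
  obtain ⟨C, κ, hC, hκ, h⟩ := hT c h0 h1
  by_contra hcon
  push Not at hcon
  have key : ∀ N : ℕ, 1 ≤ N → √(N : ℝ) ≤ C := by
    intro N hN
    have h2 := h N 0 0 hN
    have hb : bq N 0 0 = 1 := by
      have := bq_nat (N := N) (n := 0) (k := 0) le_rfl (by omega)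
      simp only [Nat.cast_zero] at this
      rw [this]
      simp [D]
    rw [hb, mul_one] at h2
    refine h2.trans ?_
    have hNp : (0 : ℝ) < N := by exact_mod_cast hN
    have h3 : (N : ℝ) * hh c - Real.log (Real.tan (Real.pi * c)) * (((0 : ℤ) : ℝ) - N * c) -
        Real.log (Real.cos (Real.pi * c)) * (((0 : ℤ) : ℝ) - N / 2) -
        κ * ((((0 : ℤ) : ℝ) - N * c) ^ 2 + (((0 : ℤ) : ℝ) - N / 2) ^ 2) / N ≤ 0 := by
      have h4 : 0 ≤ κ * ((((0 : ℤ) : ℝ) - N * c) ^ 2 + (((0 : ℤ) : ℝ) - N / 2) ^ 2) / N := by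
        positivity
      have h5 : (N : ℝ) * gN c ≤ 0 := mul_nonpos_of_nonneg_of_nonpos hNp.le hcon
      unfold gN at h5
      push_cast at h4 ⊢
      linarith
    calc C * _ ≤ C * Real.exp 0 := mul_le_mul_of_nonneg_left (Real.exp_le_exp.2 h3) hC
      _ = C := by rw [Real.exp_zero, mul_one]
  obtain ⟨N, hN⟩ := exists_nat_gt (C ^ 2 + 1)
  have hN1 : 1 ≤ N := by
    have : (0 : ℝ) < N := by nlinarith [sq_nonneg C]
    exact_mod_cast this
  have h2 := key N hN1
  have h3 : (N : ℝ) ≤ C ^ 2 := by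
    rw [← Real.sq_sqrt (show (0 : ℝ) ≤ N by positivity)]
    exact pow_le_pow_left₀ (Real.sqrt_nonneg _) h2 2
  linarith

theorem gN_half : gN (1 / 2) = 0 := by
  unfold gN hh
  have h1 : LL 0 = 0 := by simp [LL]
  have h2 : Real.pi * (1 / 2) = Real.pi / 2 := by ring
  rw [sub_self, LL_half, h1, h2, Real.cos_pi_div_two, Real.tan_pi_div_two]
  simp

theorem gN_nonneg (hT : S_T1) {c : ℝ} (h0 : 0 ≤ c) (h1 : c ≤ 1 / 2) : 0 ≤ gN c := by
  rcases h0.eq_or_lt with rfl | h0
  · rw [gN_zero]
  · rcases h1.eq_or_lt with rfl | h1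
    · rw [gN_half]
    · exact (gN_pos hT h0 h1).le

theorem task_NOP : S_NOP := by
  intro hT α hα q0 q3
  have nn := hα.nn
  have s1 := hα.s1
  have s2 := hα.s2
  have p2 := hα.p2
  have p5 := hα.p5
  have hπ := Real.pi_pos
  have n0 := nn 0
  have n1 := nn 1
  have n2 := nn 2
  have n3 := nn 3
  have n4 := nn 4
  have n5 := nn 5
  have lt : ∀ i, α i ≤ 1 / 2 := by
    intro i
    fin_cases i <;> simp only [Fin.zero_eta, Fin.mk_one, Fin.reduceFinMk] <;> linarith
  set T : Fin 6 → ℝ := fun i => Real.log (Real.tan (Real.pi * α i)) with hTd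
  set lc : Fin 6 → ℝ := fun i => Real.log (Real.cos (Real.pi * α i)) with hlc
  set ls : Fin 6 → ℝ := fun i => Real.log (Real.sin (Real.pi * α i)) with hls
  have cnn : ∀ i, 0 ≤ Real.cos (Real.pi * α i) := fun i =>
    Real.cos_nonneg_of_mem_Icc ⟨by have := mul_nonneg hπ.le (nn i); linarith, by nlinarith [lt i]⟩
  have lcn : ∀ i, lc i ≤ 0 := fun i => Real.log_nonpos (cnn i) (Real.cos_le_one _)
  have tanpos : ∀ i, 0 < α i → α i < 1 / 2 → 0 < Real.tan (Real.pi * α i) := fun i h h' =>
    Real.tan_pos_of_pos_of_lt_pi_div_two (by positivity) (by nlinarith)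
  have cospos : ∀ i, α i < 1 / 2 → 0 < Real.cos (Real.pi * α i) := fun i h =>
    Real.cos_pos_of_mem_Ioo ⟨by have := mul_nonneg hπ.le (nn i); linarith, by nlinarith⟩
  have sinpos : ∀ i, 0 < α i → 0 < Real.sin (Real.pi * α i) := fun i h =>
    Real.sin_pos_of_pos_of_lt_pi (by positivity) (by nlinarith [lt i])
  have Teq : ∀ i, T i = ls i - lc i := by
    intro i
    simp only [hTd, hlc, hls]
    rcases (nn i).eq_or_lt with h | h
    · rw [← h]
      simp
    · rcases (lt i).eq_or_lt with h' | h'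
      · rw [h', show Real.pi * (1 / 2) = Real.pi / 2 by ring, Real.tan_pi_div_two,
          Real.sin_pi_div_two, Real.cos_pi_div_two]
        simp
      · rw [Real.tan_eq_sin_div_cos, Real.log_div (sinpos i h).ne' (cospos i h').ne']
  have gnn : ∀ i, 0 ≤ gN (α i) := fun i => gN_nonneg hT (nn i) (lt i)
  have geq : ∀ i, gN (α i) = hh (α i) + α i * T i + 1 / 2 * lc i := fun i => rfl
  have mdef0 : ml α 0 = Real.log (Real.tan (Real.pi * α 2) / Real.tan (Real.pi * α 0)) := rfl
  have mdef1 : ml α 1 = Real.log (Real.tan (Real.pi * α 2) / Real.tan (Real.pi * α 1)) := rfl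
  have mdef2 : ml α 2 = Real.log (Real.tan (Real.pi * α 5) / Real.tan (Real.pi * α 3)) := rfl
  have m0 : α 0 ≠ 0 → ml α 0 = T 2 - T 0 := by
    intro h
    have h' := lt_of_le_of_ne n0 (Ne.symm h)
    rw [mdef0, Real.log_div (tanpos 2 p2 (by linarith)).ne' (tanpos 0 h' (by linarith)).ne']
  have m2 : α 3 ≠ 0 → ml α 2 = T 5 - T 3 := by
    intro h
    have h' := lt_of_le_of_ne n3 (Ne.symm h)
    rw [mdef2, Real.log_div (tanpos 5 p5 (by linarith)).ne' (tanpos 3 h' (by linarith)).ne']
  have e1 : ml α 0 * α 0 = (T 2 - T 0) * α 0 := by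
    by_cases h : α 0 = 0
    · rw [h, mul_zero, mul_zero]
    · rw [m0 h]
  have e3 : ml α 2 * α 3 = (T 5 - T 3) * α 3 := by
    by_cases h : α 3 = 0
    · rw [h, mul_zero, mul_zero]
    · rw [m2 h]
  have e2 : ml α 1 * (α 1 + α 4) = (T 2 - T 1) * (α 1 + α 4) := by
    by_cases h : α 1 = 0
    · rw [h, hα.z14.1 h, add_zero, mul_zero, mul_zero]
    · have h' := lt_of_le_of_ne n1 (Ne.symm h)
      rw [mdef1, Real.log_div (tanpos 2 p2 (by linarith)).ne' (tanpos 1 h' (by linarith)).ne']
  have e4 : α 4 * (T 1 + T 5 - T 2 - T 4) = 0 := by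
    by_cases h : α 1 = 0
    · rw [hα.z14.1 h, zero_mul]
    · have h1 := lt_of_le_of_ne n1 (Ne.symm h)
      have h4 := lt_of_le_of_ne n4 (Ne.symm fun h' => h (hα.z14.2 h'))
      have t1 := (tanpos 1 h1 (by linarith)).ne'
      have t2 := (tanpos 2 p2 (by linarith)).ne'
      have t4 := (tanpos 4 h4 (by linarith)).ne'
      have t5 := (tanpos 5 p5 (by linarith)).ne'
      have h5 := congrArg Real.log (hα.cr h)
      rw [Real.log_mul t1 t5, Real.log_mul t2 t4] at h5
      have h6 : T 1 + T 5 - T 2 - T 4 = 0 := by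
        simp only [hTd]
        linarith
      rw [h6, mul_zero]
  have e5 : lc 0 + lc 4 + ls 5 = lc 1 + ls 2 + lc 3 := by
    by_cases h : α 1 = 0
    · have h4 := hα.z14.1 h
      simp only [hlc, hls]
      have h0 : Real.pi * α 0 = Real.pi / 2 - Real.pi * α 2 := by
        rw [h] at s1
        linear_combination Real.pi * s1
      have h3 : Real.pi * α 3 = Real.pi / 2 - Real.pi * α 5 := by
        rw [h4] at s2
        linear_combination Real.pi * s2
      rw [h, h4, h0, h3, Real.cos_pi_div_two_sub, Real.cos_pi_div_two_sub]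
      ring
    · have h1 := lt_of_le_of_ne n1 (Ne.symm h)
      have h4 := lt_of_le_of_ne n4 (Ne.symm fun h' => h (hα.z14.2 h'))
      have c0 := (cospos 0 (by linarith)).ne'
      have c1 := (cospos 1 (by linarith)).ne'
      have c2 := (cospos 2 (by linarith)).ne'
      have c3 := (cospos 3 (by linarith)).ne'
      have c4 := (cospos 4 (by linarith)).ne'
      have c5 := (cospos 5 (by linarith)).ne'
      have d2 := (sinpos 2 p2).ne'
      have d5 := (sinpos 5 p5).ne'
      have h5 := hα.cr h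
      rw [Real.tan_eq_sin_div_cos, Real.tan_eq_sin_div_cos, Real.tan_eq_sin_div_cos,
        Real.tan_eq_sin_div_cos, div_mul_div_comm, div_mul_div_comm,
        div_eq_div_iff (mul_ne_zero c1 c5) (mul_ne_zero c2 c4)] at h5
      have h0 : Real.pi * α 0 = Real.pi / 2 - (Real.pi * α 1 + Real.pi * α 2) := by
        linear_combination Real.pi * s1
      have h3 : Real.pi * α 3 = Real.pi / 2 - (Real.pi * α 4 + Real.pi * α 5) := by
        linear_combination Real.pi * s2
      have h6 : Real.cos (Real.pi * α 0) * Real.cos (Real.pi * α 4) * Real.sin (Real.pi * α 5) =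
          Real.cos (Real.pi * α 1) * Real.sin (Real.pi * α 2) * Real.cos (Real.pi * α 3) := by
        rw [h0, h3, Real.cos_pi_div_two_sub, Real.cos_pi_div_two_sub, Real.sin_add, Real.sin_add]
        linear_combination h5
      have h7 := congrArg Real.log h6
      rw [Real.log_mul (mul_ne_zero c0 c4) d5, Real.log_mul c0 c4,
        Real.log_mul (mul_ne_zero c1 d2) c3, Real.log_mul c1 d2] at h7
      exact h7
  have hv : v0 α = hh (α 0) + hh (α 1) + hh (α 2) + hh (α 3) + hh (α 4) + hh (α 5) := by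
    unfold v0
    rw [Fin.sum_univ_six]
  have tneg : ∀ i, 0 < α i → α i ≤ 1 / 4 → T i ≤ 0 := by
    intro i h h'
    have h1 : Real.tan (Real.pi * α i) ≤ 1 := by
      rw [← Real.tan_pi_div_four]
      rcases h'.eq_or_lt with h2 | h2
      · rw [h2, show Real.pi * (1 / 4) = Real.pi / 4 by ring]
      · exact (Real.tan_lt_tan_of_lt_of_lt_pi_div_two (by nlinarith) (by linarith)
          (by nlinarith)).le
    exact Real.log_nonpos (tanpos i h (by linarith)).le h1
  constructor
  · intro h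
    have h' := lt_of_le_of_ne n0 (Ne.symm h)
    have hm : mR α ![1, 0, 0] = ml α 0 * (1 - α 0) + ml α 1 * (0 - (α 1 + α 4)) +
        ml α 2 * (0 - α 3) := by
      unfold mR qc
      rw [Fin.sum_univ_three]
      simp
    have key : v0 α + mR α ![1, 0, 0] = (gN (α 0) - T 0) + (gN (α 1) - lc 1) + (gN (α 2) - lc 2) +
        (gN (α 3) - lc 3) + gN (α 4) + gN (α 5) := by
      rw [hm, hv, geq, geq, geq, geq, geq, geq, m0 h]
      have f0 := Teq 0
      have f2 := Teq 2
      have f5 := Teq 5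
      linear_combination (-1 : ℝ) * e2 - e3 + e4 - T 2 * s1 - T 5 * s2 + (1 / 2) * f2 -
        (1 / 2) * f5 - (1 / 2) * e5
    rw [key]
    have g0 := gN_pos hT h' (show α 0 < 1 / 2 by linarith)
    have t0 := tneg 0 h' q0
    have g1 := gnn 1
    have g2 := gnn 2
    have g3 := gnn 3
    have g4 := gnn 4
    have g5 := gnn 5
    have l1 := lcn 1
    have l2 := lcn 2
    have l3 := lcn 3
    linarith
  · intro h
    have h' := lt_of_le_of_ne n3 (Ne.symm h)
    have hm : mR α ![0, 0, 1] = ml α 0 * (0 - α 0) + ml α 1 * (0 - (α 1 + α 4)) +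
        ml α 2 * (1 - α 3) := by
      unfold mR qc
      rw [Fin.sum_univ_three]
      simp
    have key : v0 α + mR α ![0, 0, 1] = (gN (α 0) - lc 0) + gN (α 1) + gN (α 2) +
        (gN (α 3) - T 3) + (gN (α 4) - lc 4) + (gN (α 5) - lc 5) := by
      rw [hm, hv, geq, geq, geq, geq, geq, geq, m2 h]
      have f2 := Teq 2
      have f5 := Teq 5
      linear_combination (-1 : ℝ) * e1 - e2 + e4 - T 2 * s1 - T 5 * s2 - (1 / 2) * f2 +
        (1 / 2) * f5 + (1 / 2) * e5
    rw [key]
    have g3 := gN_pos hT h' (show α 3 < 1 / 2 by linarith)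
    have t3 := tneg 3 h' q3
    have g0 := gnn 0
    have g1 := gnn 1
    have g2 := gnn 2
    have g4 := gnn 4
    have g5 := gnn 5
    have l0 := lcn 0
    have l4 := lcn 4
    have l5 := lcn 5
    linarith

end Pool.Agent.Q299.HU
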